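import Pool.Agent.J4.H93.WS.RG

/-!
# The Green-Griffiths-Lang conjecture for all large tuples of monomials of generic shape

Let `I 1, …, I s` be nonempty sets of the variables `x_0, …, x_n`. The shape of a tuple of monomials of degree `d`, the `i`-th one
with exponent vector `a i` in the variables from `I i`, is the point `z` with the coordinates `z i j = a i j / d`, in the product of
the affine spans of the faces of the simplex given by the `I i`. A shape is generic (`GenericShape I z`) if its coordinates with `j` in `I i` are not
zero and if `n` differences of points among the `z i` and the vertices of the simplex (the shapes of the `x_j ^ d`) are linearly
independent whenever this is possible with the given sets `I i`. So the shapes that are not generic lie on finitely many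
hypersurfaces, the zeros of determinants.

**Theorem.** Let `K` be a compact set of generic shapes. There are `δ > 0` and `d₀` such that the conclusions `GGLCriteria I d a`
hold for ALL tuples `a` of degree `d ≥ d₀` whose shape has distance at most `δ` from `K`.

`GGLCriteria I d a`: for all projective varieties `X` given by `m` linear combinations `F e` of the monomials with the exponent
vectors `a i` and of the `x_j ^ d`: `GGL F`, that is: for all irreducible components `V` of positive dimension of `X` it is
equivalent that `V` is of general type, that all nonconstant entire curves in `V` lie in a proper closed subset, that the
holomorphic maps from the punctured disc to `V` which do not lie in a proper closed subset extend, that off a proper closed subset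
all closed subvarieties of `V` are of general type, that the canonical class is pseudo-effective, that `V` is not ruled, and that
no diagonal one-parameter group acts nontrivially on `V`; and the Zariski closures of the union of all the entire curves in `X` and
of the union of all the closed subvarieties of positive dimension which are not of general type coincide. If any `m` of the
coefficient vectors are linearly independent and the `I i` are well spread on the set `J` of variables, there are no entire curves
and no closed subvarieties of positive dimension that are not of general type, in `X`, on which exactly the coordinates outside `J`
vanish. For the hypersurfaces (with arbitrary coefficients) the combinatorial criterion `LooseCriterion F J` for the existence of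
such entire curves. These notions are those of the starting results.
-/

set_option autoImplicit false

namespace Pool.Agent.Results.MP_8d161d_ag.GenericShapes

open Pool.Agent.J4.H93.WS Pool.Agent.J4.H93.WS.RG Pool.Agent.R869.Wd

theorem result {n s : ℕ} (I : Fin s → Finset (Fin (n + 1))) (hI : ∀ i, (I i).Nonempty)
    (K : Set (Fin s → Fin (n + 1) → ℝ)) (hK : IsCompact K) (hg : ∀ z ∈ K, GenericShape I z) :
    ∃ δ : ℝ, 0 < δ ∧ ∃ d₀ : ℕ, ∀ d : ℕ, d₀ ≤ d → ∀ a ∈ TuplesIn I d,
      (∃ z ∈ K, ∀ i j, |(a i j : ℝ) - d * z i j| ≤ δ * d) → GGLCriteria I d a := by
  obtain ⟨δ, hδ, d₀, h⟩ := typ_compact hI K hK hg
  exact ⟨δ, hδ, d₀, fun d hd a ha hz => criteria_of_typ (h d hd a ha hz)⟩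

end Pool.Agent.Results.MP_8d161d_ag.GenericShapes
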