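import Pool.Agent.J4.H93.WS.RG

/-!
# The Green-Griffiths-Lang conjecture for all but finitely many members of one-parameter families of systems of monomials

Let the exponent vectors of the monomials be polynomials in one parameter `t`: `A e i j` is the exponent of the variable `x_j` in
the `i`-th monomial of the `e`-th form. We consider the projective varieties `X` given by forms `F e` with arbitrary complex
coefficients such that all exponent vectors which occur in `F e` are among the `A e i (t)`; nothing is assumed about the powers of
the variables.

**Theorem.** Assume one of the following conditions.
* `NoConstantWidths A`: if the widths of at most `n` pairs of exponent vectors (of the same form) in the variables from a set `I`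
  with respect to directions `u` with polynomial entries vanish only if `u` is constant on `I`, then they are all constant only if
  `u` is constant on `I`. If this is violated there are directions for which the widths of the pairs remain bounded for all `t`.
  The condition may hold although the leading coefficients of the exponents are degenerate.
* `LeadingRanks A k`: the exponents have degree at most `k`, and the ranks of the coefficients of `t ^ k` are as large as possible.

Then `GGL F` for all but finitely many `t` and all these systems of forms.

`GGL F`: for all irreducible components `V` of positive dimension of `X = {F = 0}` it is equivalent that `V` is of general type,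
that all nonconstant entire curves in `V` lie in a proper closed subset, that the holomorphic maps from the punctured disc to `V`
which do not lie in a proper closed subset extend, that off a proper closed subset all closed subvarieties of `V` are of general
type, that the canonical class of `V` is pseudo-effective, that `V` is not ruled, and that no diagonal one-parameter group acts
nontrivially on `V`; and the Zariski closures of the union of all the entire curves in `X` and of the union of all the closed
subvarieties of positive dimension of `X` which are not of general type coincide.

New is the criterion for polynomial families: the lattice widths are large for all large `t`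
(`Pool.Agent.J4.H93.WS.wide_poly`), because otherwise the value of a polynomial `D` divides that of another one infinitely often,
and this gives a polynomial direction.
-/

set_option autoImplicit false

namespace Pool.Agent.Results.MP_8d161d_ag.PolynomialExponents

open MvPolynomial Pool.Agent.J4.H93.WS Pool.Agent.J4.H93.WS.RG Pool.Agent.R869.Wd

/-- For all large `t`, `GGL F` for all systems of polynomials `F e` all of whose exponent vectors are among the values
`A e i (t)`. -/
theorem result {n s : ℕ} {ι : Type} [Finite ι] (A : ι → Fin s → Fin (n + 1) → Polynomial ℤ)
    (hdeg : ∀ e i i', ∑ j, A e i j = ∑ j, A e i' j) (hA : NoConstantWidths A ∨ ∃ k, LeadingRanks A k) :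
    ∃ t₀ : ℕ, ∀ t : ℕ, t₀ ≤ t → ∀ F : ι → MvPolynomial (Fin (n + 1)) ℂ,
      (∀ e, ∀ α ∈ (F e).support, ∃ i, ∀ j, (α j : ℤ) = (A e i j).eval (t : ℤ)) → GGL F := by
  obtain ⟨N, hN⟩ : ∃ N, N = (s + 1) * (n * Pool.Agent.R869.tri (s + 1 - 1)) + 1 := ⟨_, rfl⟩
  obtain ⟨t₀, h⟩ := wide_one' hdeg hA N
  refine ⟨t₀, fun t ht F hF => ggl_of_sys (sys_of_wide (fun e i i' => ?_) (h t ht) (by omega) fun e α hα =>
    mem_expT.2 (hF e α hα))⟩
  rw [← Polynomial.eval_finsetSum, ← Polynomial.eval_finsetSum, hdeg e i i']

end Pool.Agent.Results.MP_8d161d_ag.PolynomialExponents
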