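import Pool.Agent.J4.H93.WS.RG

/-!
# The Green-Griffiths-Lang conjecture for almost all members of all polynomial families of systems of monomials

The exponents of the monomials are any polynomials `A e i j` (form `e`, monomial `i`, variable `j`) with integral coefficients in
`m` parameters `t_1, …, t_m`. We consider the projective varieties `X` given by forms `F e` with arbitrary complex coefficients
such that all exponent vectors which occur in `F e` are among the `A e i (t)`; nothing is assumed about the powers of the
variables.

**Theorem.** Assume one of the following conditions.
* `NoConstantWidthsR A`: take a set `I` of variables and at most `n` pairs of exponent vectors (of the same form) in the variables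
  from `I`; if the widths of these pairs with respect to a direction `u` with polynomial entries vanish only if `u` is constant on
  `I`, then they are all integers only if `u` is constant on `I`.
* At some integral point, the same for all `e`, the exponent vectors `A e i` of each form `e` coincide: for example, linear forms in the parameters such as
  `t_1 p_i + t_2 q_i + …`, and the family of all the tuples of monomials.

Then the parameters `t` for which `GGL F` is false for some `X` form a sparse set `E`: for every `η > 0` the proportion of the
elements of `E` in each product `S_1 × ⋯ × S_m` of sets `S_i ⊆ {0, …, H}` with at least `q` elements is at most `C H ^ η / q`. So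
almost all members of the family have the property, even if the parameters are taken from arbitrary thin sets with `H ^ ε`
elements.

`GGL F`: for all irreducible components `V` of positive dimension of `X = {F = 0}` it is equivalent that `V` is of general type,
that all nonconstant entire curves in `V` lie in a proper closed subset, that the holomorphic maps from the punctured disc to `V`
which do not lie in a proper closed subset extend, that off a proper closed subset all closed subvarieties of `V` are of general
type, that the canonical class of `V` is pseudo-effective, that `V` is not ruled, and that no diagonal one-parameter group acts
nontrivially on `V`; and the Zariski closures of the union of all the entire curves in `X` and of the union of all the closed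
subvarieties of positive dimension of `X` which are not of general type coincide.

Proof. Two new steps. (1) The widths with respect to integral directions are bounded only if the value of a polynomial `D` divides
the value of another polynomial `G`, where `D` does not divide any `c G`, or one of finitely many nonzero polynomials vanishes, or
there is a polynomial direction with constant widths (`Pool.Agent.J4.H93.WS.no_direction'`). (2) If `D` does not divide any `c G`,
then `D (t)` divides `G (t)` only for a sparse set of `t` (`Pool.Agent.J4.H93.WS.sparse_dvd`): a prime factor of `D` and `G` have a
combination which does not depend on one of the parameters and has few divisors. Then the theorems of the starting library on wide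
systems apply (`Pool.Agent.J4.H93.WS.RG.ggl_of_sys`).
-/

set_option autoImplicit false

namespace Pool.Agent.Results.MP_8d161d_ag.PolynomialFamilies

open MvPolynomial Pool.Agent.J4.H93.WS Pool.Agent.J4.H93.WS.RG Pool.Agent.R869.Wd

/-- For all parameters `t` outside of a sparse set, `GGL F` for all systems of polynomials `F e` all of whose exponent vectors are
among the values `A e i (t)`. -/
theorem result {m n s : ℕ} {ι : Type} [Finite ι] (A : ι → Fin s → Fin (n + 1) → MvPolynomial (Fin m) ℤ)
    (hdeg : ∀ e i i', ∑ j, A e i j = ∑ j, A e i' j)
    (hA : NoConstantWidthsR A ∨ ∃ t₀ : Fin m → ℤ, ∀ e i i' j, eval t₀ (A e i j) = eval t₀ (A e i' j)) :
    Sparse {t : Fin m → ℕ | ¬ ∀ F : ι → MvPolynomial (Fin (n + 1)) ℂ,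
      (∀ e, ∀ α ∈ (F e).support, ∃ i, ∀ j, (α j : ℤ) = eval (fun k => (t k : ℤ)) (A e i j)) → GGL F} := by
  obtain ⟨N, hN⟩ : ∃ N, N = (s + 1) * (n * Pool.Agent.R869.tri (s + 1 - 1)) + 1 := ⟨_, rfl⟩
  refine (wide_several' hdeg hA N).mono fun t ht hcon => ht fun F hF => ?_
  refine ggl_of_sys (sys_of_wide (a := fun e i j => evn t (A e i j)) (fun e i i' => ?_) hcon (by omega) fun e α hα =>
    mem_expT.2 (hF e α hα))
  rw [← map_sum, ← map_sum, hdeg e i i']

end Pool.Agent.Results.MP_8d161d_ag.PolynomialFamilies
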