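import Pool.Agent.J4.H22.BG.Curve
import Pool.Agent.J4.H73.BF.Final

/-!
MP_8d161d_ag, Q1: the Green-Griffiths-Lang conjecture, with one exceptional set for the variety and
all its subvarieties, for the projective varieties, of any dimension, all of whose functions are
algebraic over the values of rational maps to the spaces `P^n` of the polynomials of degree at most
`n` which are ramified over the hyperplanes of the polynomials that vanish at given constants.

`OrbifoldPolynomial` (`Pool/Agent/J4/H73/BF/Defs.lean`): the rational maps; `OnVar`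
(`Pool/Agent/Y216/Point.lean`): the points of a projective variety given by its generic point;
`EntireCurve`, `PseudoBrody` (`Pool/Agent/Y221/BD/Defs.lean`): nonconstant entire curves; they lie
in a proper closed subset; `GeneralType`, `coords`, `IsForm` (`Pool/Agent/W602/GT`).
-/

set_option autoImplicit false

namespace Pool.Agent.Results.MP_8d161d_ag.PolynomialSpaces

open MvPolynomial Pool.Agent.J4.H73.BF
open Pool.Agent.W602.GT (IsForm coords GeneralType)
open Pool.Agent.Y221.BD (EntireCurve PseudoBrody)
open Pool.Agent.Y216 (OnVar)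

/-- Let `M` be a complex projective variety with generic point `u` and function field `L`. Assume
that all functions on `M` are algebraic over the values of orbifold polynomials on `M` (see
`OrbifoldPolynomial`; here `B = 1` and `b = 0`: there is no boundary).

Then there is a proper closed subset `G = 0` of `M` which contains all nonconstant entire curves in
`M`, and such that every subvariety `V` of `M`, of dimension `w ≥ 1`, with generic point `v`, which
is not contained in `G = 0` (for instance `V = M`) is of general type, and the nonconstant entire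
curves in `V` lie in a proper closed subset of `V`. -/
theorem result {L : Type} [Field L] [Algebra ℂ L] {N : ℕ} (u : Fin (N + 1) → L) (hu : u ≠ 0)
    (hgen : coords ℂ u = ⊤)
    (h : ∀ t : L, IsAlgebraic (IntermediateField.adjoin ℂ {z : L |
      ∃ H : OrbifoldPolynomial u (1 : MvPolynomial (Fin (N + 1)) ℂ) 0, z ∈ H.values}) t) :
    ∃ G : MvPolynomial (Fin (N + 1)) ℂ, IsForm G ∧ aeval u G ≠ 0 ∧
      (∀ f, EntireCurve u f → ∀ t, eval (fun i => f i t) G = 0) ∧
      ∀ (K : Type) [Field K] [Algebra ℂ K] (v : Fin (N + 1) → K) (w : ℕ), OnVar ℂ u v →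
        coords ℂ v = ⊤ → Algebra.trdeg ℂ K = w → 1 ≤ w → aeval v G ≠ 0 →
        GeneralType ℂ K w ∧ PseudoBrody v := by
  obtain ⟨G1, ⟨d1, hG1⟩, hGu1, h1⟩ := pointed hu hgen fun t => Pool.Agent.N111.FT.mem_aclo.2 (h t)
  obtain ⟨G2, ⟨d2, hG2⟩, hGu2, h2⟩ := Pool.Agent.J4.H22.BG.brody hu hgen
    fun t => Pool.Agent.N111.FT.mem_aclo.2 (h t)
  refine ⟨G1 * G2, ⟨_, hG1.mul hG2⟩, ?_, ?_, ?_⟩
  · rw [map_mul]
    exact mul_ne_zero hGu1 hGu2
  · intro f hf t
    rw [map_mul, h2 f hf t, mul_zero]
  · intro K _ _ v w hv hvgen hw hw1 hvG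
    rw [map_mul] at hvG
    refine ⟨(h1 K v w hv hvgen hw hw1 (left_ne_zero_of_mul hvG)).1, G2, ⟨d2, hG2⟩,
      right_ne_zero_of_mul hvG, fun f hf t => h2 f ⟨hf.hol, hf.ne, fun F hF hF0 t =>
        hf.mem F hF (hv.2 F hF hF0) t, hf.nonconst⟩ t⟩

end Pool.Agent.Results.MP_8d161d_ag.PolynomialSpaces
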